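import Mathlib
import Pool.Agent.Lib.MP_856180_lc.PpGap

set_option autoImplicit false

namespace Pool.Agent.Results.MP_856180_lc.Dichotomy

open Pool.Agent.Lib.MP_856180_lc

universe u

/-- Let `μ` be uncountable of countable cofinality with dominating number `d` below `2 ^ μ`. Then
covering by sets of size at most `μ` fails on an interval from some `ℵ_δ > μ` up to
`d ≥ ℵ_(δ + μ)`, and either this interval starts at or below the continuum and there is a regular
caliber between `μ` and the continuum, or some `l < ℶ_ω` above `μ`, of countable cofinality and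
closed under countable powers, has no increasing chain of some regular length between `l` and
`l ^ ℵ₀` in any of its reduced powers over `ω`. -/
theorem result (μ : Cardinal.{u}) (hμ : Cardinal.aleph0 < μ)
    (hcof : μ.ord.cof = Cardinal.aleph0) (h : domNum μ < 2 ^ μ) :
    ∃ δ : Ordinal.{u}, μ < Cardinal.aleph δ ∧ Cardinal.aleph (δ + μ.ord) ≤ domNum μ ∧
      (∀ θ : Cardinal.{u}, Cardinal.aleph δ ≤ θ → θ ≤ domNum μ → θ < cofSub θ μ) ∧
      ((Cardinal.aleph δ ≤ 2 ^ Cardinal.aleph0 ∧ ∃ κ : Cardinal.{u}, κ.IsRegular ∧ μ < κ ∧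
          κ ≤ 2 ^ Cardinal.aleph0 ∧ IsCaliber μ κ) ∨
        ∃ l κ : Cardinal.{u}, μ < l ∧ l ≤ domNum μ ∧ l < Cardinal.beth Ordinal.omega0 ∧
          l.ord.cof = Cardinal.aleph0 ∧
          (∀ a < l, a ^ Cardinal.aleph0 < l) ∧ κ.IsRegular ∧ l < κ ∧
          κ ≤ l ^ Cardinal.aleph0 ∧ NoChain l κ) := by
  obtain ⟨h0, δ, h1, h2, h3, h4⟩ := joint hμ hcof h
  refine ⟨δ, h1, h2, h3, h4.imp_right ?_⟩
  rintro ⟨l, κ, h5, h6, h7⟩
  have hs : (Cardinal.beth Ordinal.omega0.{u}).IsStrongLimit :=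
    Cardinal.isStrongLimit_beth.mpr Ordinal.isSuccLimit_omega0.isSuccPrelimit
  exact ⟨l, κ, h5, h6, (h6.trans_lt h).trans (hs.isStrongPrelimit h0), h7⟩

end Pool.Agent.Results.MP_856180_lc.Dichotomy
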