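import Mathlib
import Pool.Agent.Lib.MP_856180_lc.AlphaLoc

set_option autoImplicit false

namespace Pool.Agent.Results.MP_856180_lc.Location

open Pool.Agent.Lib.MP_856180_lc

universe u

/-- Let `μ` be uncountable of countable cofinality with dominating number below `2 ^ μ`. Then some
singular cardinal `l` between `μ` and the continuum has a covering number above the dominating
number and accounts for `2 ^ μ`. -/
theorem result (μ : Cardinal.{u}) (hμ : Cardinal.aleph0 < μ)
    (hcof : μ.ord.cof = Cardinal.aleph0) (h : domNum μ < 2 ^ μ) :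
    ∃ l : Cardinal.{u}, μ < l ∧ l ≤ Cardinal.continuum ∧ l.ord.cof < μ ∧
      domNum μ < cofSub l μ ∧ (2 : Cardinal.{u}) ^ l.ord.cof = 2 ^ μ ∧
      max Cardinal.continuum (cofSub l μ) = 2 ^ μ :=
  location_one hμ hcof h

end Pool.Agent.Results.MP_856180_lc.Location
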