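import Mathlib
import Pool.Agent.Lib.MP_856180_lc.Thresh

set_option autoImplicit false

namespace Pool.Agent.Results.MP_856180_lc.Threshold

open Pool.Agent.Lib.MP_856180_lc

universe u

/-- Let `θ` be uncountable of countable cofinality and let `μ ≥ θ` have dominating number `d` below
`2 ^ μ`. Then either there is a set of fewer than `θ` regular cardinals in the interval `(θ, d]`
whose ultraproducts have at least `θ` different cofinalities in `(θ, d]`, or some `ν < θ` has
`μ < ν ^ ℵ₀` and `2 ^ ν = 2 ^ θ ≤ d`, and the subsets of `2 ^ θ` of size at most `μ` have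
cofinality `2 ^ μ`. -/
theorem result (θ μ : Cardinal.{u}) (hθ : Cardinal.aleph0 < θ)
    (hcof : θ.ord.cof = Cardinal.aleph0) (hθμ : θ ≤ μ) (h : domNum μ < 2 ^ μ) :
    (∃ (ι : Type u) (a : ι → Cardinal.{u}), Function.Injective a ∧ Cardinal.mk ι < θ ∧
      (∀ i, (a i).IsRegular ∧ θ < a i ∧ a i ≤ domNum μ) ∧
      ∃ U : θ.out → Ultrafilter ι, Function.Injective (fun x => ucof a (U x)) ∧
        ∀ x, θ < ucof a (U x) ∧ ucof a (U x) ≤ domNum μ) ∨
    ((∃ ν < θ, μ < ν ^ Cardinal.aleph0 ∧ (2 : Cardinal.{u}) ^ ν = 2 ^ θ) ∧ 2 ^ θ ≤ domNum μ ∧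
      cofSub (2 ^ θ) μ = 2 ^ μ) :=
  threshold hθ hcof hθμ h

end Pool.Agent.Results.MP_856180_lc.Threshold
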