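import Mathlib
import Pool.Agent.Lib.MP_856180_lc.AlphaG

set_option autoImplicit false

namespace Pool.Agent.Results.MP_856180_lc.WidePower

open Pool.Agent.Lib.MP_856180_lc

universe u

/-- Let `μ` be uncountable of countable cofinality and `σ` infinite. If `2 ^ σ`, `2 ^ ℵ₁` and the
dominating number `d` are below `2 ^ μ`, then some `t ≤ d` has cofinality in `(σ, 2 ^ σ]` and
`t ^ ℵ₀ = 2 ^ μ`. -/
theorem result (μ σ : Cardinal.{u}) (hμ : Cardinal.aleph0 < μ)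
    (hcof : μ.ord.cof = Cardinal.aleph0) (hσ : Cardinal.aleph0 ≤ σ)
    (h1 : (2 : Cardinal.{u}) ^ σ < 2 ^ μ)
    (h2 : (2 : Cardinal.{u}) ^ Cardinal.aleph 1 < 2 ^ μ) (h3 : domNum μ < 2 ^ μ) :
    ∃ t : Cardinal.{u}, t ≤ domNum μ ∧ σ < t.ord.cof ∧ t.ord.cof ≤ 2 ^ σ ∧
      t ^ Cardinal.aleph0 = 2 ^ μ :=
  exists_wide hμ hcof hσ h1 h2 h3

end Pool.Agent.Results.MP_856180_lc.WidePower
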